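import Pool.Agent.H283.HT.Stm

/-!
HT-Z: three arcs from a non-horizontal certificate.
-/

set_option autoImplicit false

namespace Pool.Agent.H283.HT

theorem good_mono {K : Set P3} {q : ℝ → P2} {a b a' b' : ℝ} (h : Good K q a b) (ha : a ≤ a')
    (hb : b' ≤ b) : Good K q a' b' := by
  obtain ⟨d, hd⟩ := h
  exact ⟨d, fun θ h1 h2 x hx hxq => hd θ (ha.trans h1) (h2.trans hb) x hx hxq⟩

theorem Z_done (hOPEN : S_OPEN) (hFIB : S_FIB) (hCERT : S_CERT) (hH2 : S_H2) (hQ : S_Q) :
    S_Z := by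
  intro K q hK hD hP hL a b k θ x n hab hba hgood hC hNH ⟨δ, hδ, hHB⟩
  obtain ⟨ε, hε, hg1⟩ := hOPEN K q hK hP b b le_rfl (hFIB K q hK hD hP hL b)
  obtain ⟨t₁, ht1, ht2, ht3⟩ : ∃ t₁ : ℝ, a ≤ t₁ ∧ t₁ < b ∧ b - ε < t₁ :=
    ⟨max a (b - ε / 2), le_max_left _ _, max_lt hab (by linarith),
      lt_of_lt_of_le (by linarith) (le_max_right _ _)⟩
  obtain ⟨ε', hε', hg2⟩ := hOPEN K q hK hP a t₁ ht1 (hgood t₁ ht1 ht2)
  obtain ⟨η, hη, h1, h2, h3, h4⟩ : ∃ η : ℝ, 0 < η ∧ η < ε ∧ η < ε' ∧ η < δ ∧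
      2 * η < a + Real.pi - b := by
    have hd : 0 < a + Real.pi - b := by linarith
    have hm : 0 < min (min ε ε') (min δ (a + Real.pi - b)) :=
      lt_min (lt_min hε hε') (lt_min hδ hd)
    refine ⟨min (min ε ε') (min δ (a + Real.pi - b)) / 3, by linarith, ?_, ?_, ?_, ?_⟩
    · have : min (min ε ε') (min δ (a + Real.pi - b)) ≤ ε :=
        (min_le_left _ _).trans (min_le_left _ _)
      linarith
    · have : min (min ε ε') (min δ (a + Real.pi - b)) ≤ ε' :=
        (min_le_left _ _).trans (min_le_right _ _)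
      linarith
    · have : min (min ε ε') (min δ (a + Real.pi - b)) ≤ δ :=
        (min_le_right _ _).trans (min_le_left _ _)
      linarith
    · have : min (min ε ε') (min δ (a + Real.pi - b)) ≤ a + Real.pi - b :=
        (min_le_right _ _).trans (min_le_right _ _)
      linarith
  refine ⟨a - η, t₁, b + η, by linarith, by linarith, by linarith,
    good_mono hg2 (by linarith) (by linarith), good_mono hg1 (by linarith) (by linarith), ?_⟩
  by_contra hbad
  obtain ⟨k', θ', x', n', hC'⟩ := hCERT K q hK hP (b + η) (a - η + Real.pi) (by linarith) hbad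
  by_cases hNH' : NH n'
  · exact hQ K q hK hD hP hL a b (b + η) (a - η + Real.pi) k k' θ x n θ' x' n' hab (by linarith)
      (by linarith) (by linarith) hC hNH hC' hNH'
  · exact hHB (a - η) (b + η) (by linarith) (by linarith) (by linarith) (by linarith)
      (hH2 K q hK hD hP (b + η) (a - η + Real.pi) k' θ' x' n' (by linarith) (by linarith) hC'
        hNH')

end Pool.Agent.H283.HT
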