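import Pool.Agent.H236.HT_SH
import Pool.Agent.H997.HT_DI
import Pool.Agent.H97.HT_INT
import Pool.Agent.H658.HT_LIGHT
import Pool.Agent.H764.HT_RC
import Pool.Agent.H59.HT_HN
import Pool.Agent.H415.HT_PAR
import Pool.Agent.H922.HT_POS
import Pool.Agent.H349.HT_TR4
import Pool.Agent.H746.HT_FACE
import Pool.Agent.H695.HT_STRICT
import Pool.Agent.H738.HT_L1
import Pool.Agent.H588.HT_L2
import Pool.Agent.H585.HT_H2
import Pool.Agent.H231.HT_H1
import Pool.Agent.H807.HT_OPEN
import Pool.Agent.H271.HT_FIB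
import Pool.Agent.H407.HT_CERT
import Pool.Agent.H878.HT_Q
import Pool.Agent.H632.HT_SUP
import Pool.Agent.H550.HT_FAR
import Pool.Agent.H878.HT_ARC3
import Pool.Agent.H549.HT_PARTI
import Pool.Agent.H79.HT_PL4
import Pool.Agent.H52.HT_FULL
import Pool.Agent.H345.HT_W1
import Pool.Agent.H903.HT_W
import Pool.Agent.H935.HT_HORB
import Pool.Agent.H967.HT_MIR
import Pool.Agent.H603.HT_BOTH
import Pool.Agent.H350.HT_MAIN
import Pool.Agent.H772.HT_TRA
import Pool.Agent.H333.HT_HORA
import Pool.Agent.H331.HT_W2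
import Pool.Agent.H283.HT.Z

/-!
Convex bodies of `ℝ³` with a half-turn: all the lemmas together.
-/

set_option autoImplicit false

namespace Pool.Agent.H283.HT

theorem sh : S_SH := Pool.Agent.H236.HTSH.SH_done
theorem di : S_DI := Pool.Agent.H997.HTX.DI_done
theorem int' : S_INT := Pool.Agent.H97.HTINT.INT_done sh
theorem light : S_LIGHT := Pool.Agent.H658.HTLIGHT.LIGHT_done sh int'
theorem rc : S_RC := Pool.Agent.H764.HTRC.RC_done sh
theorem hn : S_HN := Pool.Agent.H59.HTHN.HN_done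
theorem par : S_PAR := Pool.Agent.H415.HTX.PAR_done
theorem pos : S_POS := Pool.Agent.H922.HTX.POS_done
theorem tr4 : S_TR4 := Pool.Agent.H349.HTTR4.TR4_done pos
theorem face : S_FACE := Pool.Agent.H746.HTFACE.FACE_done di pos
theorem strict : S_STRICT := Pool.Agent.H695.HTSTRICT.STRICT_done di pos tr4 face
theorem l1 : S_L1 := Pool.Agent.H738.HTL1.L1_done pos tr4
theorem l2 : S_L2 := Pool.Agent.H588.HTL2.L2_done pos tr4
theorem h2 : S_H2 := Pool.Agent.H585.HTH2.H2_done di pos l2
theorem h1 : S_H1 := Pool.Agent.H231.HTH1.H1_done rc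
theorem opn : S_OPEN := Pool.Agent.H807.HTOPEN.OPEN_done
theorem fib : S_FIB := Pool.Agent.H271.HTFIB.FIB_done di pos light
theorem cert : S_CERT := Pool.Agent.H407.HTX.CERT_done hn
theorem q : S_Q := Pool.Agent.H878.HTQ.Q_done pos strict l1 l2
theorem sup : S_SUP := Pool.Agent.H632.HTSUP.SUP_done opn fib
theorem z : S_Z := Z_done opn fib cert h2 q
theorem far : S_FAR := Pool.Agent.H550.HTFAR.FAR_done di
theorem arc3 : S_ARC3 :=
  Pool.Agent.H878.HTARC3.ARC3_done di pos face opn fib cert h1 h2 z sup far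
theorem partI : S_PARTI := Pool.Agent.H549.HTPARTI.PARTI_done sh rc par arc3
theorem pl4 : S_PL4 := Pool.Agent.H79.HTPL4.PL4_done di
theorem full : S_FULL := Pool.Agent.H52.HTX.FULL_done sh di light pl4
theorem w1 : S_W1 := Pool.Agent.H345.HTX.W1_done di
theorem w2 : S_W2 := Pool.Agent.H331.HTX.W2_done sh di light rc w1
theorem w : S_W := Pool.Agent.H903.HTW.W_done sh di light w2
theorem horb : S_HORB := Pool.Agent.H935.HTHORB.HORB_done sh di light rc
theorem mir : S_MIR := Pool.Agent.H967.HTX.MIR_done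
theorem hora : S_HORA := Pool.Agent.H333.HTX.HORA_done sh di light rc
theorem both : S_BOTH := Pool.Agent.H603.HTBOTH.BOTH_done rc mir full w horb hora
theorem main : S_MAIN := Pool.Agent.H350.HTMAIN.MAIN_done mir partI both
theorem tra : S_TRA := Pool.Agent.H772.HTTRA.TRA_done main

end Pool.Agent.H283.HT
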