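import Mathlib

/-!
# Convex bodies of `ℝ³` with a half-turn: eight directions (statement file)

Every statement is a closed proposition `S_X`.  Its paper proof is in the docstring.
A task X is: in a new file `Pool/Agent/HNNN/HT_X.lean` importing this one, prove
`theorem X_done (h₁ : S_A) (h₂ : S_B) ... : S_X` where the allowed hypotheses are the ones named in
the docstring (USES).  (You may also prove it without them.)
-/

set_option autoImplicit false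

namespace Pool.Agent.H283.HT

/-! ## Definitions -/

/-- the plane of the shadow -/
abbrev P2 : Type := ℝ × ℝ
/-- space: (shadow point, height) -/
abbrev P3 : Type := (ℝ × ℝ) × ℝ

/-- dot product of the plane -/
def dt (u v : P2) : ℝ := u.1 * v.1 + u.2 * v.2
/-- determinant of the plane -/
def det (u v : P2) : ℝ := u.1 * v.2 - u.2 * v.1
/-- dot product of space -/
def ip (n x : P3) : ℝ := dt n.1 x.1 + n.2 * x.2
/-- the half-turn about the vertical axis -/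
def R (x : P3) : P3 := (-x.1, x.2)
/-- the directions which light `x` -/
def C (K : Set P3) (x : P3) : Set P3 := {d | ∃ t : ℝ, 0 < t ∧ x + t • d ∈ interior K}
/-- the outer normals of `K` at `x` (including `0`) -/
def NK (K : Set P3) (x : P3) : Set P3 := {n | ∀ y ∈ K, ip n y ≤ ip n x}
/-- the shadow -/
def Sh (K : Set P3) : Set P2 := Prod.fst '' K

/-- a normalised convex body with a half-turn: the axis meets `K` in `[(0,-1),(0,1)]`, and then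
`|z| ≤ 1` on `K` -/
structure Body (K : Set P3) : Prop where
  conv : Convex ℝ K
  comp : IsCompact K
  inner : (interior K).Nonempty
  sym : ∀ x ∈ K, R x ∈ K
  top : (((0 : P2), (1 : ℝ)) : P3) ∈ K
  bot : (((0 : P2), (-1 : ℝ)) : P3) ∈ K
  le : ∀ x ∈ K, x.2 ≤ 1
  ge : ∀ x ∈ K, -1 ≤ x.2

/-- a centrally symmetric convex body of the plane -/
structure Disc (Q : Set P2) : Prop where
  conv : Convex ℝ Q
  comp : IsCompact Q
  sym : ∀ p ∈ Q, -p ∈ Q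
  zero : (0 : P2) ∈ interior Q

/-- the polar parametrisation of the boundary of `Q` -/
structure Par (Q : Set P2) (q : ℝ → P2) : Prop where
  cont : Continuous q
  pol : ∀ θ : ℝ, ∃ r : ℝ, 0 < r ∧ q θ = (r * Real.cos θ, r * Real.sin θ)
  mem : ∀ θ : ℝ, q θ ∈ Q
  ext : ∀ θ c : ℝ, 1 < c → c • q θ ∉ Q
  anti : ∀ θ : ℝ, q (θ + Real.pi) = - q θ
  onto : ∀ p ∈ Q, p ∉ interior Q → ∃ θ : ℝ, q θ = p

/-- no point of `K` over the boundary of the shadow has height `-1` -/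
def Low (K : Set P3) : Prop := ∀ x ∈ K, x.1 ∉ interior (Sh K) → -1 < x.2

/-- one direction lights all points of `K` over the boundary arc `q [a,b]` -/
def Good (K : Set P3) (q : ℝ → P2) (a b : ℝ) : Prop :=
  ∃ d : P3, ∀ θ : ℝ, a ≤ θ → θ ≤ b → ∀ x ∈ K, x.1 = q θ → d ∈ C K x

/-- a certificate that the arc `[a,b]` is not good: nonzero normals with sum zero -/
structure Cert (K : Set P3) (q : ℝ → P2) (a b : ℝ) (k : ℕ) (θ : Fin k → ℝ) (x n : Fin k → P3) :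
    Prop where
  pos : 0 < k
  left : ∀ i, a ≤ θ i
  right : ∀ i, θ i ≤ b
  mem : ∀ i, x i ∈ K
  above : ∀ i, (x i).1 = q (θ i)
  normal : ∀ i, n i ∈ NK K (x i)
  ne : ∀ i, n i ≠ 0
  sum : ∑ i, n i = 0

/-- a certificate is not horizontal -/
def NH {k : ℕ} (n : Fin k → P3) : Prop := ∃ i, (n i).2 ≠ 0

/-- `q b` and `-q a` are on a common edge (face) of `Q` -/
def HB (Q : Set P2) (q : ℝ → P2) (a b : ℝ) : Prop :=
  ∃ ν : P2, ν ≠ 0 ∧ (∀ p ∈ Q, dt ν p ≤ dt ν (q b)) ∧ dt ν (q a) = - dt ν (q b)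

/-- three consecutive good arcs make up a half of the boundary -/
def Three (K : Set P3) (q : ℝ → P2) : Prop :=
  ∃ a b c : ℝ, a ≤ b ∧ b ≤ c ∧ c ≤ a + Real.pi ∧ Good K q a b ∧ Good K q b c ∧
    Good K q c (a + Real.pi)

/-- eight directions light `K` -/
def Ill8 (K : Set P3) : Prop := ∃ D : Finset P3, D.card ≤ 8 ∧ ∀ x ∈ K, ∃ d ∈ D, d ∈ C K x

/-! ## General tools -/

/-- **SH**. The shadow is a symmetric convex body of the plane, and every point of `interior (Sh K)`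
is the shadow of a point of `interior K`.
Proof. `Sh K` is the image of `K` under the continuous linear map `fst`. Let `x ∈ interior K`; then
`R x ∈ interior K` (`R` is a homeomorphism mapping `K` onto itself), so the midpoint `(0, x.2)` is in
`interior K`, and `fst '' interior K` is open (`isOpenMap_fst`), so `0 ∈ interior (Sh K)`.
Second part: `x₀ ∈ interior K`, `p ∈ interior (Sh K)`. For small `ε > 0`
`p'' := p + ε • (p - x₀.1) ∈ Sh K`, say `(p'', ζ) ∈ K`. The point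
`(ε/(1+ε)) • x₀ + (1/(1+ε)) • (p'', ζ)` is in `interior K`
(`Convex.combo_interior_self_mem_interior`) and has shadow `p`. -/
def S_SH : Prop := ∀ K : Set P3, Body K → Disc (Sh K) ∧
  ∀ p ∈ interior (Sh K), ∃ z : ℝ, ((p, z) : P3) ∈ interior K

/-- **DI** (basic facts on symmetric convex bodies of the plane).
(1) `0 ∈ interior Q`, `p ∈ Q`, `|c| < 1`: `c • p ∈ interior Q`
(`Convex.combo_interior_self_mem_interior`, for `c < 0` use `-p ∈ Q`).
(2) a support line at a point `p` of `Q` outside the interior: separate `p` from the open convex set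
`interior Q` (`geometric_hahn_banach_open_point`), `Q ⊆ closure (interior Q)`. `dt ν p > 0` as
`ε • ν ∈ Q` for small `ε > 0`. Every linear functional of `ℝ × ℝ` is `dt ν` for a `ν`.
(3) boundedness. (4) a functional `dt ν`, `ν ≠ 0`, has a positive maximum. -/
def S_DI : Prop := ∀ Q : Set P2, Disc Q →
  (∀ p ∈ Q, ∀ c : ℝ, |c| < 1 → c • p ∈ interior Q) ∧
  (∀ p ∈ Q, p ∉ interior Q → ∃ ν : P2, ν ≠ 0 ∧ (∀ x ∈ Q, dt ν x ≤ dt ν p) ∧ 0 < dt ν p) ∧
  (∃ B : ℝ, 0 < B ∧ ∀ p ∈ Q, |p.1| ≤ B ∧ |p.2| ≤ B) ∧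
  (∀ ν : P2, ν ≠ 0 → ∃ x ∈ Q, 0 < dt ν x)

/-- **INT**. USES `S_SH`. `p ∈ interior (Sh K)`, `(p,z₁), (p,z₂) ∈ K`, `z₁ < z < z₂`: `(p,z)` is in
`interior K`.
Proof. `S_SH` gives `(p,z₀) ∈ interior K`. If `z₀ ≤ z`, `(p,z)` is a convex combination of
`(p,z₀)` (positive weight) and `(p,z₂)`; otherwise of `(p,z₀)` and `(p,z₁)`. -/
def S_INT : Prop := ∀ K : Set P3, Body K → ∀ (p : P2) (z₁ z z₂ : ℝ), p ∈ interior (Sh K) →
  ((p, z₁) : P3) ∈ K → ((p, z₂) : P3) ∈ K → z₁ < z → z < z₂ → ((p, z) : P3) ∈ interior K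

/-- **LIGHT**. USES `S_SH`, `S_INT`. A sufficient condition for `(w,k) ∈ C K (p,z)`.
Proof. It suffices to find, for all small `s > 0`, `ζ₁ > z + s k` and `ζ₂ < z + s k` with
`(p + s w, ζᵢ) ∈ K`, and to note that `p + s w ∈ interior (Sh K)` for `0 < s ≤ s₀` (combination of
`p ∈ Sh K` and the interior point `p + s₀ w`); then use `S_INT`.
`ζ₁`: if `s₁ > 0`, for `s = λ s₁`, `0 < λ ≤ 1`, take `(1-λ)(p,z) + λ (p + s₁ w, z₁)`. If `s₁ = 0`
then `z < z₁`; `(p + s₀ w, ζ) ∈ K` for some `ζ`, take `(1-λ)(p,z₁) + λ (p + s₀ w, ζ)`, `s = λ s₀`: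
its height tends to `z₁ > z` for `λ → 0`. Same for `ζ₂`. -/
def S_LIGHT : Prop := ∀ K : Set P3, Body K → ∀ (p w : P2) (z k s₀ s₁ z₁ s₂ z₂ : ℝ),
  ((p, z) : P3) ∈ K → 0 < s₀ → p + s₀ • w ∈ interior (Sh K) →
  0 ≤ s₁ → ((p + s₁ • w, z₁) : P3) ∈ K → z + s₁ * k < z₁ →
  0 ≤ s₂ → ((p + s₂ • w, z₂) : P3) ∈ K → z₂ < z + s₂ * k →
  ((w, k) : P3) ∈ C K (p, z)

/-- **RC**. (1) the half-turn: `d ∈ C K x → R d ∈ C K (R x)` (`R` is a homeomorphism and maps `K`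
onto itself). (2) `x = (1-l) x₀ + l x₁`, `0 ≤ l < 1`, `x₁ ∈ K`, `d ∈ C K x₀`: then `d ∈ C K x`
(`x + (1-l) t d = (1-l)(x₀ + t d) + l x₁`, `Convex.combo_interior_self_mem_interior`).
(3) a normal which is not zero has a negative product with every lighting direction:
`x + t d ∈ interior K` gives `x + t d + e n ∈ K` for small `e > 0`, and `n ∈ NK K x`.
(4) points over the interior of the shadow are lit by `(0,1)` or `(0,-1)` (uses `S_SH`: there is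
`(x.1, z₀) ∈ interior K`). -/
def S_RC : Prop := ∀ K : Set P3, Body K →
  (∀ x d : P3, d ∈ C K x → R d ∈ C K (R x)) ∧
  (∀ (x₀ x₁ d : P3) (l : ℝ), 0 ≤ l → l < 1 → x₁ ∈ K → d ∈ C K x₀ →
    d ∈ C K ((1 - l) • x₀ + l • x₁)) ∧
  (∀ x n d : P3, n ∈ NK K x → n ≠ 0 → d ∈ C K x → ip n d < 0) ∧
  (∀ x ∈ K, x.1 ∈ interior (Sh K) →
    (((0 : P2), (1 : ℝ)) : P3) ∈ C K x ∨ (((0 : P2), (-1 : ℝ)) : P3) ∈ C K x)

/-- **HN** (Hahn-Banach). A direction which does not light `x ∈ K` has a nonnegative product with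
some nonzero normal at `x`.
Proof. The convex set `{x + t d | t > 0}` does not meet the open convex set `interior K`;
`geometric_hahn_banach_open` gives `f` and `u` with `f y < u` on `interior K`, `u ≤ f (x + t d)` for
`t > 0`. Closure: `f ≤ u` on `K` (`K ⊆ closure (interior K)`, `Convex.closure_interior...`), and
`t → 0`: `u ≤ f x ≤ u`. So `f y ≤ f x` on `K` and `f d ≥ 0`; `f ≠ 0` because `f y < u = f x` for
`y ∈ interior K`. Every linear functional of `P3` is `ip n` for some `n`. -/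
def S_HN : Prop := ∀ K : Set P3, Body K → ∀ x ∈ K, ∀ d : P3, d ∉ C K x →
  ∃ n : P3, n ≠ 0 ∧ n ∈ NK K x ∧ 0 ≤ ip n d

/-! ## The boundary of the shadow -/

/-- **PAR**. Existence of the polar parametrisation: `q θ = (gauge Q (cos θ, sin θ))⁻¹ • (cos θ,
sin θ)`. (`gauge Q` is continuous as `0 ∈ interior Q` (`continuous_gauge`), positive outside `0` as
`Q` is bounded, even as `Q` is symmetric; `gauge Q x ≤ 1 ↔ x ∈ Q` for closed `Q`
(`gauge_le_one_iff_mem_closure`), `gauge Q x < 1 ↔ x ∈ interior Q`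
(`gauge_lt_one_iff_mem_interior`). Onto: `p ∈ Q`, `p ∉ interior Q` has `gauge Q p = 1`; write
`p = r (cos θ, sin θ)`, `r > 0`, e.g. with `Complex.arg`.) -/
def S_PAR : Prop := ∀ Q : Set P2, Disc Q → ∃ q : ℝ → P2, Par Q q

/-- **POS**. (1) `det (q a) (q b) = r r' sin (b - a)` is positive for `a < b < a + π`.
(2) TRIANGLE INEQUALITY: for `a ≤ b ≤ c ≤ a + π`: `[ac] ≤ [ab] + [bc]` where `[ij] = det (q i) (q j)`.
(If `a = b` or `b = c` or `c = a + π` [then `q c = - q a`, `[ac] = 0`] this is clear from (1) and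
`det u u = 0`. Otherwise `[ac] q b = [bc] q a + [ab] q c`, so with `S = [ab] + [bc]`
`([ac]/S) • q b` is a convex combination of `q a, q c`, so in `Q`; and it is not in `Q` if
`[ac]/S > 1`... i.e. apply `Par.ext` with the factor `[ac]/S`.)
(3) `q t = α q a + β q b` with `α = [tb]/[ab]`, `β = [at]/[ab]`, for `a ≤ t ≤ b`, `a < b < a + π`,
stated as an identity without division.
(4) `q (θ + π) = - q θ` in the form `q (θ - π) = - q θ`. (5) `q θ ∉ interior Q` (otherwise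
`(1+e) • q θ ∈ Q`). (6) `det (q a) (q b) ≥ 0` for `a ≤ b ≤ a + π`. -/
def S_POS : Prop := ∀ (Q : Set P2) (q : ℝ → P2), Disc Q → Par Q q →
  (∀ a b : ℝ, a < b → b < a + Real.pi → 0 < det (q a) (q b)) ∧
  (∀ a b c : ℝ, a ≤ b → b ≤ c → c ≤ a + Real.pi →
    det (q a) (q c) ≤ det (q a) (q b) + det (q b) (q c)) ∧
  (∀ a b t : ℝ, det (q a) (q b) • q t = det (q t) (q b) • q a + det (q a) (q t) • q b) ∧
  (∀ θ : ℝ, q (θ - Real.pi) = - q θ) ∧
  (∀ θ : ℝ, q θ ∉ interior Q) ∧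
  (∀ a b : ℝ, a ≤ b → b ≤ a + Real.pi → 0 ≤ det (q a) (q b))

/-- **TR4**. USES `S_POS`. The four inequalities used in `S_L1`, `S_L2` (`[ij] = det (q i) (q j)`).
`a ≤ t ≤ b ≤ t' ≤ a + π`:
(1) `[ab] ≤ [at'] + [bt']`: triangle inequality for `b, t', a+π` (`[b,a+π] = [ab]`,
`[t',a+π] = [at']`). For `b - π ≤ a ≤ t ≤ b` (i.e. `a ≤ t ≤ b ≤ a + π`):
(2) `[tb] ≤ [at] + [ab]`: triangle for `b-π, a, t`; (3) `[at] ≤ [tb] + [ab]`: triangle for
`t, b, a+π`.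
(4) for `d - π ≤ t ≤ c ≤ d`: `[cd] ≤ [tc] + [td]`: triangle for `d-π, t, c`. -/
def S_TR4 : Prop := ∀ (Q : Set P2) (q : ℝ → P2), Disc Q → Par Q q →
  (∀ a b t : ℝ, b ≤ t → t ≤ a + Real.pi → a ≤ b →
    det (q a) (q b) ≤ det (q a) (q t) + det (q b) (q t)) ∧
  (∀ a b t : ℝ, a ≤ t → t ≤ b → b ≤ a + Real.pi →
    det (q t) (q b) ≤ det (q a) (q t) + det (q a) (q b)) ∧
  (∀ a b t : ℝ, a ≤ t → t ≤ b → b ≤ a + Real.pi →
    det (q a) (q t) ≤ det (q t) (q b) + det (q a) (q b)) ∧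
  (∀ c d t : ℝ, d - Real.pi ≤ t → t ≤ c → c ≤ d →
    det (q c) (q d) ≤ det (q t) (q c) + det (q t) (q d))

/-- **FACE**. USES `S_DI`, `S_POS`. Let `a < b < c < a + π` and let the functional `dt ν` have its
maximum over `Q` at `q a` and at `q c` (or: let its value at `q a` and `q c` be equal and `≥` its
values on `Q`). Then also at `q b`, and `q b` is in the open segment: `q b = α q a + γ q c` with
`α, γ > 0`, `α + γ = 1`.
Proof. `S_POS` (3) with `[ac] > 0` gives `α = [bc]/[ac] > 0`, `γ = [ab]/[ac] > 0`; by the triangle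
inequality `α + γ ≥ 1`. `M = dt ν (q a) = dt ν (q c) > 0` (`S_DI` (4), if `ν ≠ 0`).
`(α + γ) M = dt ν (q b) ≤ M`. So `α + γ = 1`. -/
def S_FACE : Prop := ∀ (Q : Set P2) (q : ℝ → P2), Disc Q → Par Q q →
  ∀ (a b c : ℝ) (ν : P2), a < b → b < c → c < a + Real.pi → ν ≠ 0 →
    (∀ p ∈ Q, dt ν p ≤ dt ν (q a)) → dt ν (q c) = dt ν (q a) →
    dt ν (q b) = dt ν (q a) ∧ ∃ α γ : ℝ, 0 < α ∧ 0 < γ ∧ α + γ = 1 ∧ q b = α • q a + γ • q c

/-- **STRICT**. USES `S_DI`, `S_POS`, `S_FACE`.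
Proof. Suppose both fail; with `S_TR4`/`S_POS` both are equalities (only `≤` is needed).
First: `[at'] + [bt'] ≤ [ab]`, where `b < t' < a + π`. Take a support functional `ν₁` at `q t'`
(`S_DI` (2), `S_POS` (5)), `M = dt ν₁ (q t') > 0`. `[ab] q t' = [bt'] (-q a) + [at'] q b`
(`S_POS` (3) for `b, a+π`; or directly from coordinates), so
`[ab] M ≤ ([bt'] + [at']) M ≤ [ab] M` and all are equalities: `dt ν₁ (q b) = M`,
`dt ν₁ (-q a) = M` (as `[bt'], [at'] > 0` by `S_POS` (1)). By `S_FACE` for `b < c < a+π`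
(`c < d < a+π`): `dt ν₁ (q c) = M`.
Second: `[tc] + [td] ≤ [cd]`, `d - π < t < c`. Same: a support functional `ν₂` at `q t` with
maximum `M' > 0` also at `q c` and `q (d-π) = - q d`, and by `S_FACE` for `d-π < b < c`, and for
`d - π < a < c` : `dt ν₂ (q b) = dt ν₂ (q a) = M'` (if `a = d - π`... not possible as `d < a + π`).
Now `q b, q c` is a basis (`[bc] > 0`) and `ν₁/M`, `ν₂/M'` agree on it (value `1`), so they are
equal; but `dt ν₁ (q a) = -M` and `dt ν₂ (q a) = M'`: contradiction. -/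
def S_STRICT : Prop := ∀ (Q : Set P2) (q : ℝ → P2), Disc Q → Par Q q →
  ∀ a b c d t t' : ℝ, a < b → b < c → c < d → d < a + Real.pi → a ≤ t → t ≤ b → c ≤ t' → t' ≤ d →
    det (q a) (q b) < det (q a) (q t') + det (q b) (q t') ∨
    det (q c) (q d) < det (q t) (q c) + det (q t) (q d)

/-! ## Normals over the boundary -/

/-- **L1** (the key inequality). USES `S_POS`, `S_TR4`. `a < b ≤ c < d ≤ a + π`, `a ≤ t ≤ b`,
`c ≤ t' ≤ d`, `t < t' < t + π`; `x = (q t, z)`, `x' = (q t', z')` in `K`, `n ∈ NK K x`,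
`n' ∈ NK K x'` with `n.2 n'.2 > 0`. Then (`[ij] = det (q i) (q j)`)
`|n'.2| (n.1 · (q a + q b)) [cd] + |n.2| (n'.1 · (q c + q d)) [ab] ≥ 0`, and `> 0` if
(`n.1 · q t > 0` and `[ab] < [at'] + [bt']`) or (`n'.1 · q t' > 0` and `[cd] < [tc] + [td]`).
Proof. Let `τ = |n.2|`, `τ' = |n'.2|`, `σ = ±1` the common sign, `X i = n.1 · q i`,
`X' i = n'.1 · q i`. Normal inequality of `n` for the points `x'` and `R x'`:
`X t + σ τ z ≥ |X t'| + σ τ z'`. Of `n'` for `x` and `R x`: `X' t' + σ τ' z' ≥ |X' t| + σ τ' z`.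
`τ'` times the first plus `τ` times the second: `(*) τ' X t + τ X' t' ≥ τ' |X t'| + τ |X' t|`.
Also `X t ≥ 0`, `X' t' ≥ 0` (for `σ = 1` compare with `(0,1)`: `X t + τ z ≥ τ`, `z ≤ 1`;
for `σ = -1` compare with `(0,-1)`: `X t - τ z ≥ τ`, `z ≥ -1`).
For every `y` of the plane `[tt'] (n.1 · y) = det(y, q t') X t + det(q t, y) X t'`. For
`y = q a + q b`: `det(y, q t') = [at'] + [bt'] ≥ [ab]` and `|det(q t, y)| = |[tb] - [at]| ≤ [ab]`
(`S_TR4` (1),(2),(3)), so `[tt'] n.1·(q a + q b) ≥ [ab] (X t - |X t'|)`, strictly if `X t > 0` and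
`[at'] + [bt'] > [ab]`. For `y = q c + q d` and `n'`:
`[tt'] (n'.1 · y) = det(y, q t') X' t + det(q t, y) X' t'`, `det(q t, y) = [tc] + [td] ≥ [cd]`
(`S_TR4` (4)), `|det(y, q t')| = |[ct'] - [t'd]| ≤ [cd]`, so
`[tt'] n'.1·(q c + q d) ≥ [cd] (X' t' - |X' t|)` (strict if ...). Multiply by `τ' [cd]` and
`τ [ab]` and add, use `(*)` and `[tt'] > 0`. -/
def S_L1 : Prop := ∀ (K : Set P3) (q : ℝ → P2), Body K → Disc (Sh K) → Par (Sh K) q →
  ∀ (a b c d t t' : ℝ) (x x' n n' : P3), a < b → b ≤ c → c < d → d ≤ a + Real.pi →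
    a ≤ t → t ≤ b → c ≤ t' → t' ≤ d → t < t' → t' < t + Real.pi →
    x ∈ K → x.1 = q t → n ∈ NK K x → x' ∈ K → x'.1 = q t' → n' ∈ NK K x' → 0 < n.2 * n'.2 →
    0 ≤ |n'.2| * dt n.1 (q a + q b) * det (q c) (q d) +
        |n.2| * dt n'.1 (q c + q d) * det (q a) (q b) ∧
    ((0 < dt n.1 (q t) ∧ det (q a) (q b) < det (q a) (q t') + det (q b) (q t')) ∨
     (0 < dt n'.1 (q t') ∧ det (q c) (q d) < det (q t) (q c) + det (q t) (q d)) →
     0 < |n'.2| * dt n.1 (q a + q b) * det (q c) (q d) +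
        |n.2| * dt n'.1 (q c + q d) * det (q a) (q b))

/-- **L2** (horizontal normals). USES `S_POS`, `S_TR4`, `S_DI`. `a < b < a + π`, `a ≤ t ≤ b`, `dt ν`
has its maximum over `Q` at `q t`.
(1) `dt ν (q a + q b) ≥ 0`. Proof: `[ab] q t = [tb] q a + [at] q b`, `X = ν·q a`, `Y = ν·q b`,
`[tb] X + [at] Y ≥ [ab] |X|, [ab] |Y|` (`Q` is symmetric), `|[tb] - [at]| ≤ [ab]` (`S_TR4`). If
`X + Y < 0`, say `Y ≤ X` (the other case is symmetric): `Y < 0`. If `X ≤ 0` the left side is `≤ 0`,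
the right side `[ab] |Y| > 0`. If `X > 0`: `[tb] X ≥ ([ab] + [at]) |Y| > ([ab] + [at]) X`, so
`[tb] > [ab] + [at]`, contradiction.
(2) If `dt ν (q a + q b) = 0` and `dt ν (q b) > 0` then `dt ν` has its maximum at `q b`: with
`Y = ν·q b = - ν·q a`: `[ab] ν·q t = ([at] - [tb]) Y ≤ [ab] Y`. -/
def S_L2 : Prop := ∀ (Q : Set P2) (q : ℝ → P2), Disc Q → Par Q q →
  ∀ (a b t : ℝ) (ν : P2), a < b → b < a + Real.pi → a ≤ t → t ≤ b →
    (∀ p ∈ Q, dt ν p ≤ dt ν (q t)) →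
    0 ≤ dt ν (q a + q b) ∧
    (dt ν (q a + q b) = 0 → 0 < dt ν (q b) → ∀ p ∈ Q, dt ν p ≤ dt ν (q b))

/-- **H2**. USES `S_POS`, `S_L2`, `S_DI`. A certificate on `[a,b]`, `a ≤ b < a + π`, all of whose
normals are horizontal, gives `HB`.
Proof. Let `n i = (ν i, 0)`; `ν i ≠ 0`, `dt (ν i)` has its maximum over `Sh K` at `q (θ i)` (every
point of `Sh K` is the shadow of a point of `K`), `∑ ν i = 0`. If `a = b`: all `θ i = a`, and
`∑ dt (ν i) (q a) = 0` but every term is `> 0` (`S_DI` (4)): contradiction. If `a < b`: by `S_L2` all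
`dt (ν i) (q a + q b) ≥ 0` with sum `0`, so all are `0`. `∑ dt (ν i) (q b) = 0`; no term is `0`
(then also `dt (ν i) (q a) = 0`, and `q a, q b` is a basis, `ν i = 0`). So some term is `> 0`: take
`ν = ν i` and use `S_L2` (2). -/
def S_H2 : Prop := ∀ (K : Set P3) (q : ℝ → P2), Body K → Disc (Sh K) → Par (Sh K) q →
  ∀ (a b : ℝ) (k : ℕ) (θ : Fin k → ℝ) (x n : Fin k → P3), a ≤ b → b < a + Real.pi →
    Cert K q a b k θ x n → ¬ NH n → HB (Sh K) q a b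

/-- **H1**. USES `S_RC`. If `HB` holds for `a, b` then no direction lights `K` over `q a` and `q b`.
Proof. `(ν,0)` is a nonzero normal at every point over `q b`, `(-ν,0)` at every point over `q a` (as
`dt (-ν) p = dt ν (-p) ≤ dt ν (q b) = dt (-ν) (q a)`); `S_RC` (3) for both gives
`dt ν d.1 < 0 < dt ν d.1`. (There are points of `K` over `q a`, `q b` as these are in `Sh K`.) -/
def S_H1 : Prop := ∀ (K : Set P3) (q : ℝ → P2), Body K → Disc (Sh K) → Par (Sh K) q →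
  ∀ a b : ℝ, a ≤ b → HB (Sh K) q a b → ¬ Good K q a b

/-- **OPEN**. Lighting is an open condition.
Proof. `d` lights everything over `[a,b]`. Suppose for every `m : ℕ` there are `θ m` in
`[a - 1/(m+1), b + 1/(m+1)]` and `x m ∈ K` over `q (θ m)` with `d ∉ C K (x m)`. A subsequence of
`(θ m, x m)` converges to `(θ, x)` with `θ ∈ [a,b]`, `x ∈ K`, `x.1 = q θ`. So `x + t d ∈ interior K`
for some `t > 0`, and then `x m + t d ∈ interior K` for large `m` of the subsequence. -/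
def S_OPEN : Prop := ∀ (K : Set P3) (q : ℝ → P2), Body K → Par (Sh K) q →
  ∀ a b : ℝ, a ≤ b → Good K q a b → ∃ ε : ℝ, 0 < ε ∧ Good K q (a - ε) (b + ε)

/-- **FIB**. USES `S_LIGHT`, `S_DI`, `S_POS`. Every single fibre is good if `Low K`.
Proof. The set of points of `K` over `q a` is compact and their heights are `> -1` (`Low K`,
`S_POS` (5)), so all heights are `≥ -1 + 2κ` for some `κ > 0`. Take `d = (- q a, -κ)` and use
`S_LIGHT` for `(q a, z)`: `s₀ = 1/2` (`q a - (1/2) q a = (1/2) q a ∈ interior` by `S_DI` (1));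
`s₁ = 1, z₁ = 1`: `(0,1) ∈ K` and `z - κ < 1`; `s₂ = 1, z₂ = -1`: `(0,-1) ∈ K` and `-1 < z - κ`. -/
def S_FIB : Prop := ∀ (K : Set P3) (q : ℝ → P2), Body K → Disc (Sh K) → Par (Sh K) q → Low K →
  ∀ a : ℝ, Good K q a a

/-- **CERT**. USES `S_HN`. If an arc is not good there is a certificate.
Proof. `S = {n | ‖n‖ = 1 and there are θ ∈ [a,b], x ∈ K over q θ with n ∈ NK K x}` is compact (the
image of the compact set of triples `(θ, x, n)`; the relation `n ∈ NK K x` is closed). If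
`0 ∉ convexHull S`: `convexHull ℝ S` is compact (`IsCompact.convexHull`, finite dimension) and
convex, so it is strictly separated from `0`: a linear functional, i.e. a `d : P3`, with `ip n d < 0`
for all `n ∈ S`, so for all nonzero normals `n` over `[a,b]` (scaling). By `S_HN` `d` lights
everything over `[a,b]`: the arc is good. So `0 ∈ convexHull S`: `0 = ∑ w i • n i`, `n i ∈ S`,
`w i ≥ 0`, `∑ w i = 1` (`convexHull_eq`/ Caratheodory `eq_pos_convex_span_of_mem_convexHull` gives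
`w i > 0`); the normals `w i • n i` are the certificate. -/
def S_CERT : Prop := ∀ (K : Set P3) (q : ℝ → P2), Body K → Par (Sh K) q →
  ∀ a b : ℝ, a ≤ b → ¬ Good K q a b →
    ∃ (k : ℕ) (θ : Fin k → ℝ) (x n : Fin k → P3), Cert K q a b k θ x n

/-- **Q**. USES `S_POS`, `S_L1`, `S_L2`, `S_STRICT`. Two disjoint arcs of a half circle cannot both
have non-horizontal certificates.
Proof. Write `n i = (ν i, τ i)`, `n' j = (ν' j, τ' j)`. `U = {i | τ i > 0}`, `D = {i | τ i < 0}`,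
`H = {i | τ i = 0}`; `A = ∑_U τ = ∑_D |τ| > 0` as the sum of all `τ` is `0` and not all are `0`. Same
for `n'`: `A' > 0`. `E i = dt (ν i) (q a + q b) [cd]`, `E' j = dt (ν' j) (q c + q d) [ab]`.
`∑_i E i = 0 = ∑_j E' j`; `E i ≥ 0` for `i ∈ H` by `S_L2` (a horizontal normal at a point over
`q t` is a functional with maximum at `q t`), same for `E'`; so `∑_U E + ∑_D E ≤ 0`,
`∑_U' E' + ∑_D' E' ≤ 0`.
`S_L1` for `(i,j) ∈ U × U'`: `|τ' j| E i + |τ i| E' j ≥ 0`; sum over `U × U'`: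
`A' ∑_U E + A ∑_U' E' ≥ 0`. For `(i,j) ∈ D × D'` the inequality is strict: by `S_STRICT` one of the
two determinant inequalities is strict, and `ν i · q (θ i) > 0` for `i ∈ D` because the normal
inequality with `(0,-1) ∈ K` gives `ν i · q (θ i) ≥ |τ i| (1 + z) > 0` by `Low K` (`S_POS` (5)); same
for `j`. So `A' ∑_D E + A ∑_D' E' > 0`. The sum of the two: contradiction. -/
def S_Q : Prop := ∀ (K : Set P3) (q : ℝ → P2), Body K → Disc (Sh K) → Par (Sh K) q → Low K →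
  ∀ (a b c d : ℝ) (k k' : ℕ) (θ : Fin k → ℝ) (x n : Fin k → P3) (θ' : Fin k' → ℝ)
    (x' n' : Fin k' → P3), a < b → b < c → c < d → d < a + Real.pi →
    Cert K q a b k θ x n → NH n → Cert K q c d k' θ' x' n' → NH n' → False

/-- **Z**. USES `S_OPEN`, `S_FIB`, `S_CERT`, `S_H2`, `S_Q`. `a < b < a + π`, `[a,t]` is good for all
`t ∈ [a,b)`, `[a,b]` has a non-horizontal certificate, and `HB c (a' + π)` fails for all `a' < a`,
`c > b` close to `a`, `b`. Then three good arcs.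
Proof. `[b,b]` is good (`S_FIB`), so `[b-ε,b+ε]` is (`S_OPEN`). Take `t₁ < b`, `t₁ ≥ a`,
`t₁ > b - ε`. `[a,t₁]` is good, so `[a-ε',t₁]` is. Take `c ∈ (b, b+ε)`, `a' ∈ (a-ε', a)` with
`c < a' + π`, within `δ` of `b`, `a`. Arcs `[a',t₁], [t₁,c], [c,a'+π]`: the first two are good. If
the third is not: `S_CERT`; a non-horizontal certificate contradicts `S_Q` for
`a < b < c < a'+π < a+π`; a horizontal one gives `HB c (a'+π)` by `S_H2`: contradiction. -/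
def S_Z : Prop := ∀ (K : Set P3) (q : ℝ → P2), Body K → Disc (Sh K) → Par (Sh K) q → Low K →
  ∀ (a b : ℝ) (k : ℕ) (θ : Fin k → ℝ) (x n : Fin k → P3), a < b → b < a + Real.pi →
    (∀ t : ℝ, a ≤ t → t < b → Good K q a t) → Cert K q a b k θ x n → NH n →
    (∃ δ : ℝ, 0 < δ ∧ ∀ a' c : ℝ, a - δ < a' → a' < a → b < c → c < b + δ →
      ¬ HB (Sh K) q c (a' + Real.pi)) → Three K q

/-- **SUP**. USES `S_OPEN`, `S_FIB`. For every `a` and `e > a` either `[a,t]` is good for all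
`t ∈ [a,e)`, or there is `b ∈ (a,e)` with `[a,t]` good for all `t ∈ [a,b)` and `[a,b]` not good.
Proof. `b = sup {t ∈ [a,e) | [a,t] good}`; goodness passes to subarcs; `S_FIB`, `S_OPEN`. -/
def S_SUP : Prop := ∀ (K : Set P3) (q : ℝ → P2), Body K → Disc (Sh K) → Par (Sh K) q → Low K →
  ∀ a e : ℝ, a < e → (∀ t : ℝ, a ≤ t → t < e → Good K q a t) ∨
    ∃ b : ℝ, a < b ∧ b < e ∧ (∀ t : ℝ, a ≤ t → t < b → Good K q a t) ∧ ¬ Good K q a b

/-- **FAR**. USES `S_DI`. There is a parameter `a` such that `q a` is not in the relative interior of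
a segment of `Q` (take a farthest point `p` of `Q` from `0`, i.e. maximise `dt p p`: it is not in
`interior Q`, so `p = q a`; if `p = α u + γ v` with `α, γ > 0`, `α + γ = 1`, `u, v ∈ Q`, `u ≠ v`, then
`dt p p = α dt u u + γ dt v v - α γ dt (u-v) (u-v) < dt p p`). -/
def S_FAR : Prop := ∀ (Q : Set P2) (q : ℝ → P2), Disc Q → Par Q q →
  ∃ a : ℝ, ∀ (α γ : ℝ) (u v : P2), 0 < α → 0 < γ → α + γ = 1 → u ∈ Q → v ∈ Q →
    q a = α • u + γ • v → u = v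

/-- **ARC3**. USES `S_POS`, `S_FACE`, `S_OPEN`, `S_FIB`, `S_CERT`, `S_H1`, `S_H2`, `S_Z`, `S_SUP`,
`S_FAR`, `S_DI`. Three good arcs if `Low K`.
Proof. Take `a` from `S_FAR` and apply `S_SUP` with `e = a + π`.
CASE 1: `[a,t]` good for all `t < a + π`. `[a+π,a+π]` is good, so `[a+π-ε,a+π]` is; take `t` in
`(a+π-ε, a+π)`, `t ≥ a`: the arcs `[a,t], [t,t], [t,a+π]`.
CASE 2: `b ∈ (a,a+π)`, `[a,t]` good for `t ∈ [a,b)`, `[a,b]` not good. `S_CERT` for `[a,b]`.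
2a: the certificate is not horizontal. `S_Z` with `δ` so small that `c < a' + π`: if
`HB c (a'+π)` holds with `ν`, then `μ = -ν` has its maximum over `Q` at `q a'` (`q (a'+π) = -q a'`,
`Q` symmetric) and `dt μ (q c) = dt μ (q a')`; `a' < a < b < c < a' + π`; `S_FACE` (for `a', a, c`):
`q a` is in the open segment from `q a'` to `q c`; these are different (`det > 0`), contradiction to
the choice of `a`.
2b: it is horizontal. By `S_H2` `HB a b`: `ν ≠ 0` with maximum `M > 0` at `q b` and at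
`q (a+π) = - q a`. Apply `S_SUP` at `b` with `e = a + π`.
 2b1: `[b,t]` good for all `t ∈ [b,a+π)`. `[a+π-ε,a+π]` is good, take `t` in
 `(a+π-ε, a+π)`, `t ≥ b`; `[b,t]` is good so `[b-ε',t]` is (`S_OPEN`), take `t₁ < b`, `t₁ ≥ a`,
 `t₁ > b - ε'`: the arcs `[a,t₁], [t₁,t], [t,a+π]`.
 2b2: `b₂ ∈ (b,a+π)`, `[b,t]` good for `t ∈ [b,b₂)`, `[b,b₂]` not good. `S_CERT`. The certificate is
 not horizontal: otherwise `S_H2` gives `μ ≠ 0` with maximum `m > 0` at `q b₂` and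
 `dt μ (q b) = -m`; by `S_FACE` (for `ν` and `b, b₂, a+π`) `q b₂ = α q b + γ q (a+π)`, `α,γ > 0`,
 `α + γ = 1`, so `m = -α m + γ dt μ (q (a+π)) ≤ (γ - α) m < m`, contradiction.
 Now `S_Z` for `b, b₂` (in place of `a, b`), with `δ` so small that `b' ∈ (b-δ,b)` is `> a` and
 `c ∈ (b₂,b₂+δ)` is `< a+π` and `< b'+π`: suppose `HB c (b'+π)`: `μ ≠ 0` with its maximum over
 `Q` at `q b'` and `dt μ (q c) = dt μ (q b')` (`μ` is minus the functional of `HB`). By `S_FACE`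
 (for `b' < b < c`, `b' < b₂ < c`) `dt μ` has its maximum at `q b` and `q b₂`. By `S_FACE`
 (for `b < b₂ < a+π`) `dt ν (q b₂) = dt ν (q b) = M`. As `q b, q b₂` is a basis, `μ` is a positive
 multiple of `ν`. So `dt ν` has its maximum at `q b'` and `dt ν (q a) = -M = - dt ν (q b')`: `HB a b'`,
 so `[a,b']` is not good by `S_H1`, contradiction to `a ≤ b' < b`. -/
def S_ARC3 : Prop := ∀ (K : Set P3) (q : ℝ → P2), Body K → Disc (Sh K) → Par (Sh K) q → Low K →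
  Three K q

/-- **PARTI**. USES `S_SH`, `S_RC`, `S_PAR`, `S_POS`, `S_ARC3`.
Proof. `q` from `S_PAR`, the three arcs with directions `d₁, d₂, d₃`; take
`D = {dᵢ, R dᵢ, (0,1), (0,-1)}`. Let `x ∈ K`. If `x.1 ∈ interior (Sh K)`: `S_RC` (4). Otherwise
`x.1 = q θ`; `θ = θ' + m π` with `m : ℤ`, `θ' ∈ [a, a+π)`; `q θ = q θ'` or `- q θ'`. In the first case
`x` is over `q θ'` and is lit by some `dᵢ`; in the second `R x` is, so `x` is lit by `R dᵢ`
(`S_RC` (1), `R (R x) = x`). -/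
def S_PARTI : Prop := ∀ K : Set P3, Body K → Low K → Ill8 K

/-! ## Both extreme faces touch the boundary of the shadow -/

/-- **PL4**. USES `S_DI`. Four directions `±a, ±b` for a planar symmetric body, with uniform step.
Proof. Let `p₀` be a farthest point of `Q` from `0`, `b = p₀`, `a = J p₀ = (-p₀.2, p₀.1)`.
Claim: for every `p ∈ Q` there are `w ∈ {±a,±b}` and `s > 0` with `p + s w ∈ interior Q`.
`p = ± p₀`: `w = ∓ p₀`, `s = 1/2`. Otherwise suppose that neither `a` nor `-a` works. As in `S_HN`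
there are `ν, ν' ≠ 0` with maxima over `Q` at `p` and `dt ν a ≥ 0`, `dt ν' (-a) ≥ 0`. A convex
combination `μ` of `ν, ν'` has `dt μ a = 0`, its maximum at `p`, and `μ ≠ 0` (at `0 ∈ interior Q` both
functionals are smaller than at `p`: `dt ν p > 0`, `dt ν' p > 0`, so `dt μ p > 0`). So `μ = c p₀`,
`c ≠ 0`; `dt μ p ≥ |dt μ p₀|` (symmetry) gives `|dt p₀ p| ≥ dt p₀ p₀`, and with
`dt p p ≤ dt p₀ p₀` this gives `p = ± p₀` (Cauchy-Schwarz with equality). Contradiction.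
Uniformity: by compactness. (For `p ∈ Q` with `p + s w ∈ interior Q` also `p' + s' w ∈ interior Q`
for `p' ∈ Q` close to `p` and `0 < s' ≤ s` (convexity); finitely many neighbourhoods cover `Q`, take
the minimal `s`. Then `f p = min_w gauge Q (p + s w)` is continuous and `< 1` on the compact `Q`; `η`
with `f ≤ 1 - η`, `p' = (1-η)⁻¹ (p + s w) ∈ Q`.) -/
def S_PL4 : Prop := ∀ Q : Set P2, Disc Q → ∃ (a b : P2) (s η : ℝ), 0 < s ∧ 0 < η ∧ η < 1 ∧
  ∀ p ∈ Q, ∃ w ∈ ({a, -a, b, -b} : Set P2), ∃ p' ∈ Q, p + s • w = (1 - η) • p'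

/-- **FULL**. USES `S_LIGHT`, `S_SH`, `S_DI`, `S_PL4`. If the top face is the whole shadow.
Proof. `a, b, s, η` from `S_PL4` for `Sh K`; `κ = η/s`, `k = 3/s`;
`D = {(±a,-κ), (±b,-κ), (±a,k), (±b,k)}`. Let `(p,z) ∈ K`, `w, p'` from `S_PL4`,
`p + s w = (1-η) p'`. `(1-η) p' ∈ interior (Sh K)` (`S_DI` (1)).
`((1-η) p', 1) ∈ K` (hypothesis) and `((1-η) p', 1 - 2η) ∈ K` (combination of `(p',1)`, weight
`1-η`, and `(0,-1)`, weight `η`). If `z = 1`: `(w,-κ)` lights by `S_LIGHT` with `s₀ = s₁ = s₂ = s`,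
`z₁ = 1 > 1 - η`, `z₂ = 1 - 2η < 1 - η`. If `z < 1`: `(w,k)` lights with `s₀ = s₂ = s`,
`z₂ = 1 - 2η < z + 3` (`z ≥ -1`), and `s₁ = 0`, `z₁ = 1 > z` (`(p,1) ∈ K`). -/
def S_FULL : Prop := ∀ K : Set P3, Body K → (∀ p ∈ Sh K, ((p, (1 : ℝ)) : P3) ∈ K) → Ill8 K

/-- **W1** (extreme tangent direction). USES `S_DI`. `F` a planar symmetric body, `f₀ ∈ F` not in
its interior.
Proof. `ν₀` a support functional at `f₀` (`S_DI` (2)), scaled to `dt ν₀ ν₀ = 1`; `u₀ = ± J ν₀`, the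
sign such that there is `f ∈ F` with `dt u₀ (f - f₀) > 0` (`F` has interior points so it is not in
the line `dt u₀ (f - f₀) = 0`). Let `m = inf {- dt ν₀ (f-f₀) / dt u₀ (f-f₀) | f ∈ F,
dt u₀ (f-f₀) > 0} ≥ 0`. `w = u₀ - m ν₀`, `ν = ν₀ + m u₀`: `dt ν w = 0`, `dt ν (f-f₀) ≤ 0` for all
`f ∈ F` (two cases by the sign of `dt u₀ (f-f₀)`); `dt ν f₀ > 0` as `ν ≠ 0` and `0 ∈ interior F`
(`S_DI` (4)). For given `ε` take `f` with ratio `ρ < m + ε`; then
`f - f₀ = s (u₀ - ρ ν₀) = s (w + η)`, `s = dt u₀ (f-f₀)`, `η = (m-ρ) ν₀`, `|ν₀.1|, |ν₀.2| ≤ 1`. -/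
def S_W1 : Prop := ∀ F : Set P2, Disc F → ∀ f₀ ∈ F, f₀ ∉ interior F →
  ∃ w ν : P2, w ≠ 0 ∧ ν ≠ 0 ∧ dt ν w = 0 ∧ (∀ f ∈ F, dt ν f ≤ dt ν f₀) ∧ 0 < dt ν f₀ ∧
    ∀ ε : ℝ, 0 < ε → ∃ f ∈ F, ∃ (s : ℝ) (η : P2), 0 < s ∧ |η.1| < ε ∧ |η.2| < ε ∧
      f = f₀ + s • (w + η)

/-- **W2** (the top face is not a segment through the origin and not the whole shadow).
USES `S_W1`, `S_LIGHT`, `S_SH`, `S_DI`, `S_RC`. `F = {p | (p,1) ∈ K}`.
Proof. `F` is convex, compact, symmetric. `p₀ ∈ F` is not in `interior (Sh K)`, `f ∈ F` is not a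
multiple of `p₀`; `0` is in the interior of `conv {±p₀, ±f} ⊆ F`. So `Disc F`. Let `p ∈ Sh K`,
`p ∉ F`; `l = max {l | l p ∈ F} ∈ (0,1)`, `f₀ = l p ∈ F`, `f₀ ∉ interior F`, and
`f₀ ∈ interior (Sh K)` (`S_DI` (1) for `Sh K`). Take `w, ν` from `S_W1` for `F, f₀`.
`f₀` is not a multiple of `p₀`: `f₀ = μ p₀` has `|μ| < 1` (as `f₀ ∈ interior (Sh K)`,
`p₀ ∉ interior (Sh K)`; for `|μ| ≥ 1` `p₀ = μ⁻¹ f₀` would be interior) and then `f₀ ∈ interior F` by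
`S_DI` (1) for `F`: contradiction.
By `S_SH` there is `(f₀,z₀) ∈ interior K`, so `(f₀, 1 - c₀) ∈ K` for some `c₀ > 0`, and by symmetry
and convexity `(l f₀, 1 - c₀) ∈ K` for `|l| ≤ 1`.
Let `p ∈ F`, `p' = (dt ν p / dt ν f₀) f₀`: `|dt ν p| ≤ dt ν f₀`, so `p' ∈ [-f₀,f₀]`, and
`dt ν (p' - p) = 0` so `p' - p = σ w`, `|σ| ≤ S` with a uniform bound `S > 0` (boundedness).
Choose `κ > 0` with `κ S < c₀`.
(a) `σ ≠ 0`: direction `(w,-κ)` if `σ > 0`, `(-w,-κ)` if `σ < 0`. `S_LIGHT` with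
`s₀ = s₁ = s₂ = |σ|`: `p' ∈ interior (Sh K)`, `(p',1) ∈ K`, `1 - |σ| κ < 1`, `(p',1-c₀) ∈ K`,
`1 - c₀ < 1 - |σ| κ`.
(b) `p = l f₀`, `|l| < 1`: `p ∈ interior F` (`S_DI` (1)), so `p + s w ∈ F` for small `s > 0`, and
`p + s w ∈ interior (Sh K)` for small `s`; `S_LIGHT` with `(w,-κ)`, `s₀ = s₁ = s`, `z₁ = 1`,
`s₂ = 0`, `z₂ = 1 - c₀`.
(c) `p = f₀`: `r₀ > 0` with `f₀ + v ∈ interior (Sh K)` for `|v.1|, |v.2| ≤ r₀`. Take `f, s', η`
from `S_W1` with `ε = κ r₀ / 2`: `f = f₀ + s' (w + η) ∈ F`. For small `s > 0` put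
`l = s e / r₀`, where `e = max |η.i|`  (if `η = 0`, `l = 0`), so small that `s ≤ (1-l) s'`. Then
`f₀ + s w = (1-l) (f₀ + (s/(1-l)) (w+η)) + l (f₀ + v)`, `v = -(s/l) η`, `|v.i| ≤ r₀`. The first point
is in `F` (between `f₀` and `f`), the second in `Sh K`, with height `≥ -1`. So
`(f₀ + s w, z₁) ∈ K` with `z₁ ≥ 1 - 2 l = 1 - 2 s e/r₀ > 1 - s κ`. `S_LIGHT` with `(w,-κ)`:
`s₀ = s` small, `s₁ = s`, `s₂ = 0`, `z₂ = 1 - c₀`.
(d) `p = -f₀`: the half-turn (`S_RC` (1)) of (c): `(-w,-κ)` lights `(-f₀,1)`. -/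
def S_W2 : Prop := ∀ K : Set P3, Body K → ∀ p₀ f : P2, ((p₀, (1 : ℝ)) : P3) ∈ K →
  p₀ ∉ interior (Sh K) → ((f, (1 : ℝ)) : P3) ∈ K → (∀ c : ℝ, f ≠ c • p₀) →
  (∃ p ∈ Sh K, ((p, (1 : ℝ)) : P3) ∉ K) →
  ∃ (w : P2) (κ : ℝ), 0 < κ ∧ ∀ p : P2, ((p, (1 : ℝ)) : P3) ∈ K →
    ((w, -κ) : P3) ∈ C K (p, 1) ∨ ((-w, -κ) : P3) ∈ C K (p, 1)

/-- **W**. USES `S_W2`, `S_LIGHT`, `S_DI`, `S_SH`. The same without the assumption on `f`.
Proof. If there is such an `f`: `S_W2`. Otherwise every `p` with `(p,1) ∈ K` is `c p₀`, and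
`|c| ≤ 1` (for `|c| > 1` `p₀ = c⁻¹ p ∈ interior (Sh K)` by `S_DI` (1)). Take `w = p₀`, `κ = 1`. For
`0 ≤ c ≤ 1`: `(-p₀,-1)` lights `(c p₀, 1)`: `S_LIGHT` with `s₀ = s₁ = 1/2`
(`(c - 1/2) p₀ ∈ interior (Sh K)`, `((c-1/2) p₀, 1) ∈ K`, `1 - 1/2 < 1`), `s₂ = c`, `z₂ = -1 < 1 - c`.
For `-1 ≤ c ≤ 0`: `(p₀,-1)` in the same way. -/
def S_W : Prop := ∀ K : Set P3, Body K → ∀ p₀ : P2, ((p₀, (1 : ℝ)) : P3) ∈ K →
  p₀ ∉ interior (Sh K) → (∃ p ∈ Sh K, ((p, (1 : ℝ)) : P3) ∉ K) →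
  ∃ (w : P2) (κ : ℝ), 0 < κ ∧ ∀ p : P2, ((p, (1 : ℝ)) : P3) ∈ K →
    ((w, -κ) : P3) ∈ C K (p, 1) ∨ ((-w, -κ) : P3) ∈ C K (p, 1)

/-- `x` is lit by one of the four horizontal directions, or it is on a half-open segment of `K`
which starts at a point of height `1` -/
def HorLit (K : Set P3) (w w' : P2) (x : P3) : Prop :=
  (((w, (0 : ℝ)) : P3) ∈ C K x ∨ ((-w, (0 : ℝ)) : P3) ∈ C K x ∨
    ((w', (0 : ℝ)) : P3) ∈ C K x ∨ ((-w', (0 : ℝ)) : P3) ∈ C K x) ∨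
  ∃ x₀ ∈ K, x₀.2 = 1 ∧ ∃ x₁ ∈ K, ∃ l : ℝ, 0 ≤ l ∧ l < 1 ∧ x = (1 - l) • x₀ + l • x₁

/-- **HORB**. USES `S_LIGHT`, `S_SH`, `S_DI`, `S_RC`.
Proof. First `det p₀ p₁ ≠ 0`: otherwise `p₁ = c p₀` or `p₀ = c p₁` with `|c| ≤ 1`, and `|c| < 1`
is impossible by `S_DI` (1), so `p₁ = ± p₀` (`p₀ ≠ 0`), and `(p₀ + p₁)/2` or `(p₀ - p₁)/2` is `p₀`.
Take `w = -(p₀ + p₁)`, `w' = p₀ - p₁`. Let `(p,z) ∈ K`, `-1 < z < 1`, `p = x₁ p₀ + x₂ p₁`.
`x₁, x₂ ≥ 0`: `|x₁ - x₂| ≤ 1`: if `x₁ > 1 + x₂` then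
`p₀ = x₁⁻¹ p + (x₂/x₁) (-p₁)` with coefficients of sum `< 1`, so `p₀ ∈ interior (Sh K)`; same for
`x₂ > 1 + x₁`. Direction `(w,0)` by `S_LIGHT`: `s₁ = x₂`: `p + x₂ w = (x₁-x₂) p₀`, and
`((x₁-x₂) p₀, 1) ∈ K` (convexity, `(±p₀,1) ∈ K`), `z < 1`. `s₂ = x₁`: `p + x₁ w = (x₂-x₁) p₁`,
`z₂ = -1 < z`. `s₀ = (x₁+x₂)/2`: `p + s₀ w = (x₁-x₂) ((p₀-p₁)/2) ∈ interior (Sh K)` if `s₀ > 0`; if
`x₁ = x₂ = 0` any small `s₀` (`0 ∈ interior`).
`x₁ ≤ 0 ≤ x₂`: direction `(w',0)`: `s₁ = x₂`: `(x₁+x₂) p₀`, `|x₁+x₂| ≤ 1` as before (with `-p₀`);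
`s₂ = -x₁`: `(x₁+x₂) p₁`; `s₀ = (x₂-x₁)/2`: `(x₁+x₂) ((p₀+p₁)/2)`.
The other two quadrants by the half-turn (`S_RC` (1)), directions `-w`, `-w'`. -/
def S_HORB : Prop := ∀ K : Set P3, Body K → ∀ p₀ p₁ : P2, ((p₀, (1 : ℝ)) : P3) ∈ K →
  ((p₁, (-1 : ℝ)) : P3) ∈ K → p₀ ∉ interior (Sh K) → p₁ ∉ interior (Sh K) →
  (1 / 2 : ℝ) • (p₀ + p₁) ∈ interior (Sh K) → (1 / 2 : ℝ) • (p₀ - p₁) ∈ interior (Sh K) →
  ∃ w w' : P2, ∀ x ∈ K, -1 < x.2 → x.2 < 1 → HorLit K w w' x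

/-- **HORA**. USES `S_LIGHT`, `S_SH`, `S_DI`, `S_RC`.
Proof. `m = (p₀ + p₁)/2 ∈ Sh K` is not interior: `S_DI` (2) gives `ν` with `ν·m = 1 ≥ ν·p` on `Sh K`
(scaled), so `ν·p₀ = ν·p₁ = 1`. There are `u ≠ 0`, `c ≥ 0` with `ν·u = 0`, `p₁ = p₀ + c u`
(`u = p₁ - p₀`, `c = 1` if `p₁ ≠ p₀`; otherwise `c = 0`, `u = J ν`). Every `p` of the plane is
`p = x p₀ + y u`, `x = ν·p`; on `Sh K`: `|x| ≤ 1`, `|y| ≤ Y`. Take `δ > 0` with `c δ ≤ 1/2` and
`2 δ (Y + c) < 1`; `w = -u - δ p₀`, `w' = u - δ p₀`. Let `(p,z) ∈ K`, `-1 < z < 1`, `p = x p₀ + y u`;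
by the half-turn we may assume `x ≥ 0` (`HorLit` is invariant, `S_RC` (1)). Note
`(l p₀, 1) ∈ K`, `(l p₁, -1) ∈ K` for `|l| ≤ 1`, and `l p₀, l p₁ ∈ interior (Sh K)` for `|l| < 1`.
(0) `x = y = 0`: `p = 0`: direction `w`, `s₀` small, `s₁ = s₂ = 0`, `(0,±1) ∈ K`.
(1) `y = 0`, `c = 0`, (then `p₁ = p₀`): `(p,z)` is in the segment from `(x p₀,1)` to
`(x p₀,-1)` and is not the second end point: second alternative of `HorLit`.
(2) `y ≥ c x`, `y > 0`: direction `w`: `p + s w = (x - δ s) p₀ + (y - s) u`. `s₀ = s₁ = y`: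
`(x - δ y) p₀`, `|x - δ y| < 1`, height `1 > z`. `s₂ = (y - c x)/(1 - c δ)`: `(x - δ s₂) p₁`, height
`-1 < z`.
(3) `y ≤ 0` and not (0),(1): direction `w'`: `p + s w' = (x - δ s) p₀ + (y + s) u`. `s₁ = -y`:
`(x + δ y) p₀`; `s₀ = s₂ = (c x - y)/(1 + c δ) > 0`: `(x - δ s₂) p₁`, `|x - δ s₂| < 1`.
(4) `0 < y < c x`: if there is `z₂ < z` with `(p,z₂) ∈ K`: direction `w`, `s₀ = s₁ = y`, `s₂ = 0`.
If there is `z₁ > z` with `(p,z₁) ∈ K`: direction `w'`, `s₀ = s₂ = (c x - y)/(1 + c δ) > 0`,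
`s₁ = 0`. Otherwise `(p,z)` is the only point of `K` over `p`; with `l = y/(c x) ∈ (0,1)`
`p = (1-l) x p₀ + l x p₁` so `(p,z) = (1-l) (x p₀, 1) + l (x p₁, -1)`: second alternative.
(In (2): the case `y > 0`, `y ≥ c x` includes `x = 0`. (2),(3),(4) cover everything except
`y = 0`, `c x = 0`, i.e. `y = 0` and (`x = 0` or `c = 0`): (0),(1). Note `y = 0`, `c x > 0` is in
(3).) -/
def S_HORA : Prop := ∀ K : Set P3, Body K → ∀ p₀ p₁ : P2, ((p₀, (1 : ℝ)) : P3) ∈ K →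
  ((p₁, (-1 : ℝ)) : P3) ∈ K → p₀ ∉ interior (Sh K) → p₁ ∉ interior (Sh K) →
  (1 / 2 : ℝ) • (p₀ + p₁) ∉ interior (Sh K) →
  ∃ w w' : P2, ∀ x ∈ K, -1 < x.2 → x.2 < 1 → HorLit K w w' x

/-- reflection in the horizontal plane -/
def Mz (x : P3) : P3 := (x.1, -x.2)

/-- **MIR** (the mirror image in the horizontal plane). `Mz` is a linear homeomorphism and an
involution; it commutes with `R`. -/
def S_MIR : Prop := ∀ K : Set P3, Body K → Body (Mz '' K) ∧ Sh (Mz '' K) = Sh K ∧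
  (∀ x d : P3, Mz d ∈ C (Mz '' K) (Mz x) → d ∈ C K x) ∧ (Ill8 (Mz '' K) → Ill8 K) ∧
  (∀ x : P3, Mz x ∈ Mz '' K ↔ x ∈ K)

/-- **BOTH**. USES `S_MIR`, `S_FULL`, `S_W`, `S_HORA`, `S_HORB`, `S_RC`.
Proof. If all `(p,1)`, `p ∈ Sh K`, are in `K`: `S_FULL`. If all `(p,-1)` are: `S_FULL` for `Mz '' K`.
Otherwise `S_W` for `K` gives `w₁, κ`, `S_W` for `Mz '' K` gives `w₂, κ'`, and
`S_HORA` (if `(p₀+p₁)/2 ∉ interior`), `S_HORA` with `-p₁` (if `(p₀-p₁)/2 ∉ interior`;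
`(-p₁,-1) ∈ K`, `-p₁ ∉ interior`) or `S_HORB` give `w, w'`.
`D = {(±w₁,-κ), (±w₂,κ'), (±w,0), (±w',0)}`. A point of height `1` or `-1` is lit by the first or
second pair. A point with `-1 < x.2 < 1` is lit by a horizontal direction or is
`(1-l) x₀ + l x₁` with `x₀ = (p,1)`, `d ∈ C K x₀` for one of the first pair: `S_RC` (2). -/
def S_BOTH : Prop := ∀ K : Set P3, Body K → ∀ p₀ p₁ : P2, ((p₀, (1 : ℝ)) : P3) ∈ K →
  ((p₁, (-1 : ℝ)) : P3) ∈ K → p₀ ∉ interior (Sh K) → p₁ ∉ interior (Sh K) → Ill8 K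

/-- **MAIN**. USES `S_MIR`, `S_PARTI`, `S_BOTH`.
Proof. If `Low K`: `S_PARTI`. If `Low (Mz '' K)`: `S_PARTI` for it and `S_MIR`. Otherwise there are
`x, y ∈ K` over points outside `interior (Sh K)` with `x.2 = -1`, `y.2 = 1`: `S_BOTH`. -/
def S_MAIN : Prop := ∀ K : Set P3, Body K → Ill8 K

/-! ## Transfer to Euclidean space -/

/-- three-dimensional Euclidean space -/
abbrev E3 : Type := EuclideanSpace ℝ (Fin 3)

/-- **TRA**. USES `S_MAIN`. A convex body `K` of `ℝ³` with an affine symmetry `φ` which is an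
involution with positive determinant, different from the identity.
Proof. The linear part `A` of `φ` has `A² = 1`, `det A > 0`, `A ≠ 1` (if `A = 1`, `φ` is a nontrivial
translation, `φ² ≠ id`), so it has a basis of eigenvectors with eigenvalues `-1, -1, 1`
(`det = 1`, trace `-1`). For `k ∈ interior K`, `(k + φ k)/2 ∈ interior K` is fixed; the fixed
points are the line `F = x₀ + ℝ e` (`e` the eigenvector for `1`). `K ∩ F` is a segment `[x_S, x_N]`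
of positive length; put `c = (x_S + x_N)/2`, `e₃ = (x_N - x_S)/2`, `e₁, e₂` a basis of the
`-1`-eigenspace, `L ((x,y),z) = c + x e₁ + y e₂ + z e₃`, `K' = L ⁻¹' K`: `φ ∘ L = L ∘ R`. `Body K'`:
for `(p,z) ∈ K'` also `(-p,z) ∈ K'` so `(0,z) ∈ K'`, so `|z| ≤ 1`. `S_MAIN` gives the eight
directions for `K'` and their images under the linear part of `L` for `K`. -/
def S_TRA : Prop := ∀ (K : Set E3), Convex ℝ K → IsCompact K → (interior K).Nonempty →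
  ∀ φ : E3 →ᵃ[ℝ] E3, φ '' K = K → (∀ v, φ (φ v) = v) → 0 < LinearMap.det φ.linear →
    (∃ v, φ v ≠ v) →
    ∃ D : Finset E3, D.card ≤ 8 ∧ ∀ x ∈ K, ∃ d ∈ D, ∃ t : ℝ, 0 < t ∧ x + t • d ∈ interior K

end Pool.Agent.H283.HT
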