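import Pool.Agent.H283.HT.Stm
import Pool.Graph.R_seed8.W867.Cov3.Sym2
import Pool.Graph.R_seed8.Y512.Lit

/-!
Bodies of `ℝ³` with an affine symmetry: the reduction to half-turns.
-/

set_option autoImplicit false

open Set Topology Module

namespace Pool.Agent.H283.HT

open Pool.Agent.W867.Cov3 (Cov8)

/-- every affine symmetry which is not a reflection in a plane or in a point gives eight
translates -/
theorem cov_sym (hTRA : S_TRA) {K : Set E3} (hK : Convex ℝ K) (hc : IsCompact K)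
    (hint : (interior K).Nonempty) (g : E3 →ᵃ[ℝ] E3) (hg : g '' K = K)
    (h : (0 < LinearMap.det g.linear ∧ ∃ v, g v ≠ v) ∨ ∃ v, g (g v) ≠ v) : Cov8 K := by
  have hdim : finrank ℝ E3 = 3 := by simp
  have key : ∀ φ : E3 →ᵃ[ℝ] E3, φ '' K = K → (∀ v, φ (φ v) = v) →
      0 < LinearMap.det φ.linear → (∃ v, φ v ≠ v) → Cov8 K := by
    intro φ h1 h2 h3 h4
    obtain ⟨D, hD, hl⟩ := hTRA K hK hc hint φ h1 h2 h3 h4
    obtain ⟨T, hT, hcov⟩ := Pool.Agent.Y512.cover_of_lit hK hc D (fun x hx => by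
      obtain ⟨d, hd, t, ht, hm⟩ := hl x hx
      exact ⟨d, hd, t, ht, hm⟩)
    exact ⟨T, hT.trans hD, hcov⟩
  by_cases h4 : ∃ v, g (g (g (g v))) ≠ v
  · exact Pool.Agent.W867.Cov3.cov_affine' hdim hK hc hint g hg (Or.inr h4)
  push Not at h4
  by_cases h2 : ∃ v, g (g v) ≠ v
  · refine key (g.comp g) ?_ ?_ ?_ h2
    · have : (g.comp g : E3 → E3) = g ∘ g := rfl
      rw [this, image_comp, hg, hg]
    · intro v
      exact h4 v
    · have h5 := Pool.Agent.W867.Cov3.det_ne_zero hint g hg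
      have : (g.comp g).linear = g.linear * g.linear := rfl
      rw [this, map_mul]
      exact mul_self_pos.2 h5
  · rcases h with ⟨h5, h6⟩ | h6
    · push Not at h2
      exact key g hg h2 h5 h6
    · exact absurd h6 h2

end Pool.Agent.H283.HT
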